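import Mathlib

set_option autoImplicit false
set_option linter.unusedSectionVars false

namespace Pool.Agent.Lib.MP_ca0bb9_al

open Subgroup
open scoped commutatorElement

/-- Two elements are comparable when one is a power of the other. -/
def Cmp {H : Type*} [Group H] (a b : H) : Prop := a ∈ zpowers b ∨ b ∈ zpowers a

lemma Cmp.symm {H : Type*} [Group H] {a b : H} (h : Cmp a b) : Cmp b a := Or.symm h

lemma zpow_gcd_mem {H : Type*} [Group H] (w : H) (n : ℕ) (hw : w ^ n = 1) (i : ℤ) :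
    w ^ (Int.gcd i n) ∈ zpowers (w ^ i) := by
  have h := Int.gcd_eq_gcd_ab i n
  refine ⟨Int.gcdA i n, ?_⟩
  have h2 : w ^ (Int.gcd i n) = w ^ ((Int.gcd i n : ℕ) : ℤ) := (zpow_natCast _ _).symm
  rw [h2, h, zpow_add, zpow_mul, zpow_mul, zpow_natCast, hw, one_zpow, mul_one]

lemma zpow_mem_of_dvd {H : Type*} [Group H] (w : H) (d : ℕ) (i : ℤ) (h : (d : ℤ) ∣ i) :
    w ^ i ∈ zpowers (w ^ d) := by
  obtain ⟨c, rfl⟩ := h
  refine ⟨c, ?_⟩
  simp only [zpow_mul, zpow_natCast]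

lemma cmp_of_mem {H : Type*} [Group H] {p : ℕ} (hp : p.Prime) {w : H} {m : ℕ}
    (hw : w ^ (p ^ m) = 1) {a b : H} (ha : a ∈ zpowers w) (hb : b ∈ zpowers w) : Cmp a b := by
  obtain ⟨i, rfl⟩ := ha
  obtain ⟨j, rfl⟩ := hb
  have hi : Int.gcd i ((p ^ m : ℕ) : ℤ) ∣ p ^ m := by
    have := Int.gcd_dvd_right i ((p ^ m : ℕ) : ℤ)
    exact_mod_cast this
  have hj : Int.gcd j ((p ^ m : ℕ) : ℤ) ∣ p ^ m := by
    have := Int.gcd_dvd_right j ((p ^ m : ℕ) : ℤ)
    exact_mod_cast this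
  obtain ⟨s, -, hs⟩ := (Nat.dvd_prime_pow hp).1 hi
  obtain ⟨t, -, ht⟩ := (Nat.dvd_prime_pow hp).1 hj
  have hi1 := zpow_gcd_mem w _ hw i
  have hj1 := zpow_gcd_mem w _ hw j
  have hi2 := Int.gcd_dvd_left i ((p ^ m : ℕ) : ℤ)
  have hj2 := Int.gcd_dvd_left j ((p ^ m : ℕ) : ℤ)
  rw [hs] at hi1 hi2
  rw [ht] at hj1 hj2
  rcases le_total s t with hst | hst
  · right
    have : ((p ^ s : ℕ) : ℤ) ∣ j := by
      refine dvd_trans ?_ hj2
      exact_mod_cast pow_dvd_pow p hst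
    exact (zpowers_le.2 hi1) (zpow_mem_of_dvd w _ j this)
  · left
    have : ((p ^ t : ℕ) : ℤ) ∣ i := by
      refine dvd_trans ?_ hi2
      exact_mod_cast pow_dvd_pow p hst
    exact (zpowers_le.2 hj1) (zpow_mem_of_dvd w _ i this)

section Top

variable {G : Type*} [Group G] [TopologicalSpace G] [IsTopologicalGroup G] [CompactSpace G]
  [T2Space G] [TotallyDisconnectedSpace G]

lemma exists_notMem {a : G} (ha : a ≠ 1) : ∃ N : OpenNormalSubgroup G, a ∉ N := by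
  obtain ⟨N, hN⟩ := ProfiniteGrp.exist_openNormalSubgroup_sub_open_nhds_of_one
    (U := ({a}ᶜ : Set G)) isOpen_compl_singleton (by simpa using ha.symm)
  exact ⟨N, fun h => hN h rfl⟩

lemma eq_of_forall_mk {a b : G}
    (h : ∀ N : OpenNormalSubgroup G, (a : G ⧸ N.toSubgroup) = (b : G ⧸ N.toSubgroup)) : a = b := by
  by_contra hne
  have : a⁻¹ * b ≠ 1 := fun h1 => hne (inv_mul_eq_one.1 h1)
  obtain ⟨N, hN⟩ := exists_notMem this
  exact hN (QuotientGroup.eq.1 (h N))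

omit [CompactSpace G] [T2Space G] [TotallyDisconnectedSpace G] in
lemma mk_mem_of_mem_closure {x z : G} (hz : z ∈ (zpowers x).topologicalClosure)
    (N : OpenNormalSubgroup G) : (z : G ⧸ N.toSubgroup) ∈ zpowers (x : G ⧸ N.toSubgroup) := by
  have hle : zpowers x ≤ (zpowers (x : G ⧸ N.toSubgroup)).comap (QuotientGroup.mk' N.toSubgroup) := by
    rw [zpowers_le]
    exact mem_zpowers _
  have hopen : IsOpen (((zpowers (x : G ⧸ N.toSubgroup)).comap
      (QuotientGroup.mk' N.toSubgroup) : Subgroup G) : Set G) := by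
    refine Subgroup.isOpen_mono (H₁ := N.toSubgroup) ?_ N.isOpen
    intro g hg
    have : (g : G ⧸ N.toSubgroup) = 1 := (QuotientGroup.eq_one_iff g).2 hg
    simp only [mem_comap, QuotientGroup.mk'_apply, this]
    exact one_mem _
  exact Subgroup.topologicalClosure_minimal _ hle (Subgroup.isClosed_of_isOpen _ hopen) hz

omit [T2Space G] in
lemma mem_closure_of_mk {x z : G}
    (h : ∀ N : OpenNormalSubgroup G, (z : G ⧸ N.toSubgroup) ∈ zpowers (x : G ⧸ N.toSubgroup)) :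
    z ∈ (zpowers x).topologicalClosure := by
  have : z ∈ _root_.closure (zpowers x : Set G) := by
    rw [_root_.mem_closure_iff]
    intro U hU hzU
    obtain ⟨N, hN⟩ := ProfiniteGrp.exist_openNormalSubgroup_sub_open_nhds_of_one
      (U := (fun g => z * g) ⁻¹' U) (hU.preimage (continuous_const_mul z)) (by simpa using hzU)
    obtain ⟨k, hk⟩ := h N
    have hk' : (z : G ⧸ N.toSubgroup) = ((x ^ k : G) : G ⧸ N.toSubgroup) := by
      rw [← hk]; simp
    have hm : z⁻¹ * x ^ k ∈ N := QuotientGroup.eq.1 hk'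
    refine ⟨x ^ k, ?_, ⟨k, rfl⟩⟩
    have := hN hm
    simpa using this
  exact this

omit [CompactSpace G] [TotallyDisconnectedSpace G] in
lemma pow_eq_one_of_mem_closure {c z : G} {n : ℕ} (hc : c ^ n = 1)
    (hz : z ∈ (zpowers c).topologicalClosure) : z ^ n = 1 := by
  have hcl : IsClosed {g : G | g ^ n = 1} := isClosed_eq (continuous_pow n) continuous_const
  have hsub : (zpowers c : Set G) ⊆ {g : G | g ^ n = 1} := by
    rintro _ ⟨k, rfl⟩
    show (c ^ k) ^ n = 1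
    rw [← zpow_natCast, ← zpow_mul, mul_comm, zpow_mul, zpow_natCast, hc, one_zpow]
  exact closure_minimal hsub hcl hz

omit [CompactSpace G] [TotallyDisconnectedSpace G] in
lemma commute_of_mem_closure {c z y : G} (hc : Commute c y)
    (hz : z ∈ (zpowers c).topologicalClosure) : Commute z y := by
  have hcl : IsClosed {g : G | g * y = y * g} :=
    isClosed_eq (continuous_mul_const y) (continuous_const_mul y)
  have hsub : (zpowers c : Set G) ⊆ {g : G | g * y = y * g} := by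
    rintro _ ⟨k, rfl⟩
    exact (hc.zpow_left k).eq
  exact closure_minimal hsub hcl hz

omit [CompactSpace G] [TotallyDisconnectedSpace G] in
lemma closure_eq_of_pow {c : G} {n : ℕ} (hn : 0 < n) (hc : c ^ n = 1) :
    (zpowers c).topologicalClosure = zpowers c := by
  have hfin : IsOfFinOrder c := isOfFinOrder_iff_pow_eq_one.2 ⟨n, hn, hc⟩
  have : (zpowers c : Set G).Finite := finite_zpowers.2 hfin
  exact le_antisymm (Subgroup.topologicalClosure_minimal _ le_rfl this.isClosed)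
    (Subgroup.le_topologicalClosure _)

variable {p : ℕ}

omit [T2Space G] in
lemma pow_mem_closure (hp : p.Prime)
    (hG : ∀ N : OpenNormalSubgroup G, IsPGroup p (G ⧸ N.toSubgroup)) {x c : G}
    (hc : c ∈ (zpowers x).topologicalClosure) (N0 : OpenNormalSubgroup G) (hN0 : c ∉ N0) :
    ∃ k : ℕ, x ^ (p ^ k) ∈ (zpowers c).topologicalClosure := by
  obtain ⟨k, hk⟩ := hG N0 (x : G ⧸ N0.toSubgroup)
  have hxk : x ^ (p ^ k) ∈ N0 := by
    have : ((x ^ (p ^ k) : G) : G ⧸ N0.toSubgroup) = 1 := by simpa using hk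
    exact (QuotientGroup.eq_one_iff _).1 this
  refine ⟨k, mem_closure_of_mk fun N => ?_⟩
  obtain ⟨m, hm⟩ := hG (N ⊓ N0) (x : G ⧸ (N ⊓ N0).toSubgroup)
  have h1 := mk_mem_of_mem_closure hc (N ⊓ N0)
  have h2 : ((x ^ (p ^ k) : G) : G ⧸ (N ⊓ N0).toSubgroup) ∈
      zpowers (x : G ⧸ (N ⊓ N0).toSubgroup) := by
    refine ⟨((p ^ k : ℕ) : ℤ), ?_⟩
    simp only [zpow_natCast, QuotientGroup.mk_pow]
  rcases cmp_of_mem hp hm h1 h2 with ⟨j, hj⟩ | ⟨j, hj⟩
  · exfalso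
    have hj' : (((x ^ (p ^ k)) ^ j : G) : G ⧸ (N ⊓ N0).toSubgroup) = (c : G ⧸ _) := by
      rw [← hj]; simp
    have hmem : ((x ^ (p ^ k)) ^ j)⁻¹ * c ∈ N0 := (QuotientGroup.eq.1 hj').2
    have := mul_mem (zpow_mem hxk j) hmem
    apply hN0
    simpa using this
  · have hj' : ((c ^ j : G) : G ⧸ (N ⊓ N0).toSubgroup) = ((x ^ (p ^ k) : G) : G ⧸ _) := by
      rw [← hj]; simp
    have hmem : (c ^ j)⁻¹ * x ^ (p ^ k) ∈ N := (QuotientGroup.eq.1 hj').1
    refine ⟨j, ?_⟩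
    have : ((c ^ j : G) : G ⧸ N.toSubgroup) = ((x ^ (p ^ k) : G) : G ⧸ _) :=
      QuotientGroup.eq.2 hmem
    rw [← this]; simp

/-- Standing hypothesis: every closed subgroup not inside `S` is normal. -/
def Good (S : Subgroup G) : Prop :=
  ∀ L : Subgroup G, IsClosed (L : Set G) → ¬ L ≤ S → L.Normal

variable {S : Subgroup G}

lemma Good.normal (hS : Good S) {x : G} (hx : x ∉ S) :
    (zpowers x).topologicalClosure.Normal :=
  hS _ (Subgroup.isClosed_topologicalClosure _) fun h =>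
    hx (h (Subgroup.le_topologicalClosure _ (mem_zpowers x)))

lemma Good.conj_mem (hS : Good S) {x : G} (hx : x ∉ S) (g : G) :
    g * x * g⁻¹ ∈ (zpowers x).topologicalClosure :=
  (hS.normal hx).conj_mem _ (Subgroup.le_topologicalClosure _ (mem_zpowers x)) g

lemma Good.comm_mem (hS : Good S) {x : G} (hx : x ∉ S) (g : G) :
    ⁅x, g⁆ ∈ (zpowers x).topologicalClosure := by
  have h1 := hS.conj_mem hx g
  have h2 := Subgroup.le_topologicalClosure _ (mem_zpowers x)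
  have : ⁅x, g⁆ = x * (g * x * g⁻¹)⁻¹ := by rw [commutatorElement_def]; group
  rw [this]
  exact mul_mem h2 (inv_mem h1)

lemma Good.conj_conj (hS : Good S) {x : G} (hx : x ∉ S) (g h : G) :
    g * (h * x * h⁻¹) * g⁻¹ = h * (g * x * g⁻¹) * h⁻¹ := by
  refine eq_of_forall_mk fun N => ?_
  obtain ⟨a, ha⟩ := mk_mem_of_mem_closure (hS.conj_mem hx g) N
  obtain ⟨b, hb⟩ := mk_mem_of_mem_closure (hS.conj_mem hx h) N
  simp only [QuotientGroup.mk_mul, QuotientGroup.mk_inv] at ha hb ⊢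
  rw [← ha, ← hb, ← conj_zpow, ← conj_zpow, ← ha, ← hb, ← zpow_mul, ← zpow_mul, mul_comm]

lemma Good.central (hS : Good S) (hT : S ≠ ⊤) (g h y : G) : Commute ⁅g, h⁆ y := by
  have key : ∀ x : G, x ∉ S → Commute ⁅g, h⁆ x := by
    intro x hx
    have := hS.conj_conj hx h⁻¹ g⁻¹
    have h2 : ⁅g, h⁆ * x = g * h * (g⁻¹ * (h⁻¹ * x * h⁻¹⁻¹) * g⁻¹⁻¹) * (g⁻¹ * h⁻¹) := by
      rw [commutatorElement_def]; group
    have h3 : x * ⁅g, h⁆ = g * h * (h⁻¹ * (g⁻¹ * x * g⁻¹⁻¹) * h⁻¹⁻¹) * (g⁻¹ * h⁻¹) := by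
      rw [commutatorElement_def]; group
    show ⁅g, h⁆ * x = x * ⁅g, h⁆
    rw [h2, h3, this]
  by_cases hy : y ∈ S
  · obtain ⟨x0, hx0⟩ : ∃ x0 : G, x0 ∉ S := by
      by_contra hcon
      push Not at hcon
      exact hT ((Subgroup.eq_top_iff' S).2 hcon)
    have h1 : x0 * y ∉ S := fun hm => hx0 (by simpa using mul_mem hm (inv_mem hy))
    have : y = x0⁻¹ * (x0 * y) := by group
    rw [this]
    exact (key x0 hx0).inv_right.mul_right (key _ h1)
  · exact key y hy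

lemma Good.comm_mul_left (hS : Good S) (hT : S ≠ ⊤) (a b c : G) :
    ⁅a * b, c⁆ = ⁅a, c⁆ * ⁅b, c⁆ := by
  have h := (hS.central hT b c a).eq
  have h1 : ⁅a * b, c⁆ = a * ⁅b, c⁆ * a⁻¹ * ⁅a, c⁆ := by
    simp only [commutatorElement_def]; group
  rw [h1, ← h, (hS.central hT a c ⁅b, c⁆).eq]
  group

lemma Good.comm_mul_right (hS : Good S) (hT : S ≠ ⊤) (a b c : G) :
    ⁅a, b * c⁆ = ⁅a, b⁆ * ⁅a, c⁆ := by
  have h := (hS.central hT a c b).eq
  have h1 : ⁅a, b * c⁆ = ⁅a, b⁆ * (b * ⁅a, c⁆ * b⁻¹) := by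
    simp only [commutatorElement_def]; group
  rw [h1, ← h]
  group

lemma Good.comm_pow_left (hS : Good S) (hT : S ≠ ⊤) (a c : G) (n : ℕ) :
    ⁅a ^ n, c⁆ = ⁅a, c⁆ ^ n := by
  induction n with
  | zero => simp
  | succ n ih => rw [pow_succ, hS.comm_mul_left hT, ih, pow_succ]

lemma Good.torsion (hS : Good S) (hT : S ≠ ⊤) (hp : p.Prime)
    (hG : ∀ N : OpenNormalSubgroup G, IsPGroup p (G ⧸ N.toSubgroup)) {x g : G} (hx : x ∉ S)
    (hc : ⁅x, g⁆ ≠ 1) : ∃ m : ℕ, x ^ (p ^ m) = 1 := by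
  obtain ⟨N0, hN0⟩ := exists_notMem hc
  obtain ⟨k, hk⟩ := pow_mem_closure hp hG (hS.comm_mem hx g) N0 hN0
  have h1 : Commute (x ^ (p ^ k)) g := commute_of_mem_closure (hS.central hT x g g) hk
  have h2 : ⁅x, g⁆ ^ (p ^ k) = 1 := by
    rw [← hS.comm_pow_left hT]
    exact h1.commutator_eq
  have h3 := pow_eq_one_of_mem_closure h2 hk
  exact ⟨k + k, by rw [pow_add, pow_mul, h3]⟩

lemma Good.comm_mem_zpowers (hS : Good S) (hp : p.Prime) {x : G} (hx : x ∉ S) {m : ℕ}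
    (hm : x ^ (p ^ m) = 1) (g : G) : ⁅x, g⁆ ∈ zpowers x := by
  rw [← closure_eq_of_pow (pow_pos hp.pos m) hm]
  exact hS.comm_mem hx g

lemma Good.comm_pow (hS : Good S) (hT : S ≠ ⊤) (hp : p.Prime)
    (hG : ∀ N : OpenNormalSubgroup G, IsPGroup p (G ⧸ N.toSubgroup)) {x : G} (hx : x ∉ S)
    (g : G) : ∃ m : ℕ, ⁅x, g⁆ ^ (p ^ m) = 1 := by
  by_cases hc : ⁅x, g⁆ = 1
  · exact ⟨0, by simp [hc]⟩
  · obtain ⟨m, hm⟩ := hS.torsion hT hp hG hx hc
    exact ⟨m, pow_eq_one_of_mem_closure hm (hS.comm_mem hx g)⟩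

lemma Good.cmp_same (hS : Good S) (hT : S ≠ ⊤) (hp : p.Prime)
    (hG : ∀ N : OpenNormalSubgroup G, IsPGroup p (G ⧸ N.toSubgroup)) {x : G} (hx : x ∉ S)
    (g h : G) : Cmp ⁅x, g⁆ ⁅x, h⁆ := by
  by_cases hc : ⁅x, g⁆ = 1
  · left; rw [hc]; exact one_mem _
  · obtain ⟨m, hm⟩ := hS.torsion hT hp hG hx hc
    exact cmp_of_mem hp hm (hS.comm_mem_zpowers hp hx hm g) (hS.comm_mem_zpowers hp hx hm h)

lemma cmp_inv_left {H : Type*} [Group H] {a b : H} (h : Cmp a b) : Cmp a⁻¹ b := by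
  rcases h with h | h
  · exact Or.inl (inv_mem h)
  · exact Or.inr (by rwa [zpowers_inv])

lemma mem_inf_of_cmp {H : Type*} [Group H] (hp : p.Prime) {a b c : H} {m : ℕ}
    (hc : c ^ (p ^ m) = 1) (hab : ¬ Cmp a b) (h1 : Cmp c a) (h2 : Cmp c b) :
    c ∈ zpowers a ∧ c ∈ zpowers b := by
  rcases h1 with h1 | h1 <;> rcases h2 with h2 | h2
  · exact ⟨h1, h2⟩
  · exact absurd (Or.inr ((zpowers_le.2 h1) h2)) hab
  · exact absurd (Or.inl ((zpowers_le.2 h2) h1)) hab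
  · exact absurd (cmp_of_mem hp hc h1 h2) hab

lemma not_cmp {H : Type*} [Group H] {A B : Subgroup H} {u v : H} (hu : u ∈ A) (hu' : u ∉ B)
    (hv : v ∈ B) (hv' : v ∉ A) : ¬ Cmp u v := by
  rintro (h | h)
  · exact hu' ((zpowers_le.2 hv) h)
  · exact hv' ((zpowers_le.2 hu) h)

lemma Good.cmp_aux (hS : Good S) (hT : S ≠ ⊤) (hp : p.Prime)
    (hG : ∀ N : OpenNormalSubgroup G, IsPGroup p (G ⧸ N.toSubgroup)) {x y g h : G}
    (hx : x ∉ S) (hy : y ∉ S) (hg : g ∉ S) (hh : h ∉ S) : Cmp ⁅x, g⁆ ⁅y, h⁆ := by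
  by_contra hab
  set a := ⁅x, g⁆ with ha
  set b := ⁅y, h⁆ with hb
  have haB : a ∉ zpowers b := fun hm => hab (Or.inl hm)
  have hbA : b ∉ zpowers a := fun hm => hab (Or.inr hm)
  have sw : ∀ u v : G, ⁅u, v⁆ = ⁅v, u⁆⁻¹ := fun u v => (commutatorElement_inv v u).symm
  have cA1 : ∀ v : G, Cmp ⁅x, v⁆ a := fun v => hS.cmp_same hT hp hG hx v g
  have cA2 : ∀ v : G, Cmp ⁅g, v⁆ a := fun v => by
    have := (cmp_inv_left (hS.cmp_same hT hp hG hg x v)).symm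
    rwa [← sw] at this
  have cB1 : ∀ u : G, Cmp ⁅u, y⁆ b := fun u => by
    have := cmp_inv_left (hS.cmp_same hT hp hG hy u h)
    rwa [← sw] at this
  have cB2 : ∀ u : G, Cmp ⁅u, h⁆ b := fun u => by
    have := cmp_inv_left (cmp_inv_left (hS.cmp_same hT hp hG hh y u)).symm
    rwa [← sw, ← sw] at this
  have E : ∀ u v : G, u ∉ S → Cmp ⁅u, v⁆ a → Cmp ⁅u, v⁆ b →
      ⁅u, v⁆ ∈ zpowers a ∧ ⁅u, v⁆ ∈ zpowers b := by
    intro u v hu h1 h2
    obtain ⟨m, hm⟩ := hS.comm_pow hT hp hG hu v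
    exact mem_inf_of_cmp hp hm hab h1 h2
  have Exy := E x y hx (cA1 y) (cB1 x)
  have Exh := E x h hx (cA1 h) (cB2 x)
  have Egy := E g y hg (cA2 y) (cB1 g)
  have Egh := E g h hg (cA2 h) (cB2 g)
  have aA : a ∈ zpowers a := mem_zpowers a
  have bB : b ∈ zpowers b := mem_zpowers b
  have z1 : g * y ∈ S := by
    by_contra hz
    refine not_cmp (A := zpowers a) (B := zpowers b) ?_ ?_ ?_ ?_ (hS.cmp_same hT hp hG hz x h)
    · rw [hS.comm_mul_left hT, sw g x, sw y x]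
      exact mul_mem (inv_mem aA) (inv_mem Exy.1)
    · rw [hS.comm_mul_left hT, sw g x, sw y x]
      intro hm
      exact haB (inv_mem_iff.1 ((mul_mem_cancel_right (inv_mem Exy.2)).1 hm))
    · rw [hS.comm_mul_left hT]
      exact mul_mem Egh.2 bB
    · rw [hS.comm_mul_left hT]
      intro hm
      exact hbA ((mul_mem_cancel_left Egh.1).1 hm)
  have z2 : x * (g * y) ∈ S := by
    by_contra hz
    refine not_cmp (A := zpowers a) (B := zpowers b) ?_ ?_ ?_ ?_ (hS.cmp_same hT hp hG hz g h)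
    · rw [hS.comm_mul_left hT, hS.comm_mul_left hT, commutatorElement_self, one_mul, sw y g]
      exact mul_mem aA (inv_mem Egy.1)
    · rw [hS.comm_mul_left hT, hS.comm_mul_left hT, commutatorElement_self, one_mul, sw y g]
      intro hm
      exact haB ((mul_mem_cancel_right (inv_mem Egy.2)).1 hm)
    · rw [hS.comm_mul_left hT, hS.comm_mul_left hT]
      exact mul_mem Exh.2 (mul_mem Egh.2 bB)
    · rw [hS.comm_mul_left hT, hS.comm_mul_left hT]
      intro hm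
      exact hbA ((mul_mem_cancel_left Egh.1).1 ((mul_mem_cancel_left Exh.1).1 hm))
  exact hx ((mul_mem_cancel_right z1).1 z2)

lemma Good.exists_right (hS : Good S) (hT : S ≠ ⊤) {x : G} (hx : x ∉ S) (g : G) :
    ∃ g' : G, g' ∉ S ∧ ⁅x, g⁆ = ⁅x, g'⁆ := by
  by_cases hg : g ∈ S
  · refine ⟨g * x, fun hm => hx (by simpa using mul_mem (inv_mem hg) hm), ?_⟩
    rw [hS.comm_mul_right hT, commutatorElement_self, mul_one]
  · exact ⟨g, hg, rfl⟩

lemma Good.cmp_all (hS : Good S) (hT : S ≠ ⊤) (hp : p.Prime)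
    (hG : ∀ N : OpenNormalSubgroup G, IsPGroup p (G ⧸ N.toSubgroup)) {x y : G}
    (hx : x ∉ S) (hy : y ∉ S) (g h : G) : Cmp ⁅x, g⁆ ⁅y, h⁆ := by
  obtain ⟨g', hg', e1⟩ := hS.exists_right hT hx g
  obtain ⟨h', hh', e2⟩ := hS.exists_right hT hy h
  rw [e1, e2]
  exact hS.cmp_aux hT hp hG hx hy hg' hh'

lemma Good.bdd (hS : Good S) (hT : S ≠ ⊤) (hp : p.Prime)
    (hG : ∀ N : OpenNormalSubgroup G, IsPGroup p (G ⧸ N.toSubgroup)) :
    ∃ M : ℕ, 0 < M ∧ ∀ x : G, x ∉ S → ∀ g : G, ⁅x, g⁆ ^ M = 1 := by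
  by_cases hall : ∀ x : G, x ∉ S → ∀ g : G, ⁅x, g⁆ = 1
  · exact ⟨1, one_pos, fun x hx g => by simp [hall x hx g]⟩
  push Not at hall
  obtain ⟨x0, hx0, g0, ha⟩ := hall
  obtain ⟨N0, hN0⟩ := exists_notMem ha
  obtain ⟨m0, hm0⟩ := hS.comm_pow hT hp hG hx0 g0
  have hfin : Finite (G ⧸ N0.toSubgroup) := Subgroup.quotient_finite_of_isOpen _ N0.isOpen
  have he : 0 < Nat.card (G ⧸ N0.toSubgroup) := Nat.card_pos
  refine ⟨Nat.card (G ⧸ N0.toSubgroup) * p ^ m0, mul_pos he (pow_pos hp.pos _), fun x hx g => ?_⟩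
  have hz : ∀ z : G, z ∈ zpowers ⁅x0, g0⁆ → z ^ (p ^ m0) = 1 := fun z hz =>
    pow_eq_one_of_mem_closure hm0 (Subgroup.le_topologicalClosure _ hz)
  rcases hS.cmp_all hT hp hG hx hx0 g g0 with h | h
  · rw [mul_comm, pow_mul, hz _ h, one_pow]
  · obtain ⟨m, hm⟩ := hS.comm_pow hT hp hG hx g
    have hN : ⁅x, g⁆ ^ (Nat.card (G ⧸ N0.toSubgroup)) ∈ N0 := by
      have : ((⁅x, g⁆ ^ (Nat.card (G ⧸ N0.toSubgroup)) : G) : G ⧸ N0.toSubgroup) = 1 := by
        rw [QuotientGroup.mk_pow]; exact pow_card_eq_one'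
      exact (QuotientGroup.eq_one_iff _).1 this
    rcases cmp_of_mem hp hm h (pow_mem (mem_zpowers _) (Nat.card (G ⧸ N0.toSubgroup))) with h2 | h2
    · exact absurd ((zpowers_le (H := N0.toSubgroup)).2 hN h2) hN0
    · rw [pow_mul, hz _ h2]

lemma Good.exists_gen (hS : Good S) (hT : S ≠ ⊤) (hp : p.Prime)
    (hG : ∀ N : OpenNormalSubgroup G, IsPGroup p (G ⧸ N.toSubgroup)) :
    ∃ (c : G) (m : ℕ), c ^ (p ^ m) = 1 ∧ commutator G = zpowers c := by
  obtain ⟨M, hM, hbd⟩ := hS.bdd hT hp hG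
  obtain ⟨x0, hx0⟩ : ∃ x0 : G, x0 ∉ S := by
    by_contra hcon
    push Not at hcon
    exact hT ((Subgroup.eq_top_iff' S).2 hcon)
  let T : Set ℕ := {n | ∃ x : G, x ∉ S ∧ ∃ g : G, orderOf ⁅x, g⁆ = n}
  have hTne : T.Nonempty := ⟨_, x0, hx0, 1, rfl⟩
  have hTb : BddAbove T := by
    refine ⟨M, ?_⟩
    rintro _ ⟨x, hx, g, rfl⟩
    exact Nat.le_of_dvd hM (orderOf_dvd_of_pow_eq_one (hbd x hx g))
  obtain ⟨x1, hx1, g1, hmax⟩ := Nat.sSup_mem hTne hTb
  obtain ⟨m, hm⟩ := hS.comm_pow hT hp hG hx1 g1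
  have key : ∀ x : G, x ∉ S → ∀ g : G, ⁅x, g⁆ ∈ zpowers ⁅x1, g1⁆ := by
    intro x hx g
    rcases hS.cmp_all hT hp hG hx hx1 g g1 with h | h
    · exact h
    · have hle : zpowers ⁅x1, g1⁆ ≤ zpowers ⁅x, g⁆ := zpowers_le.2 h
      have hfin : IsOfFinOrder ⁅x, g⁆ := isOfFinOrder_iff_pow_eq_one.2 ⟨M, hM, hbd x hx g⟩
      have : Finite (zpowers ⁅x, g⁆) := (finite_zpowers.2 hfin).to_subtype
      have hcard : Nat.card (zpowers ⁅x, g⁆) ≤ Nat.card (zpowers ⁅x1, g1⁆) := by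
        rw [Nat.card_zpowers, Nat.card_zpowers, hmax]
        exact le_csSup hTb ⟨x, hx, g, rfl⟩
      rw [Subgroup.eq_of_le_of_card_ge hle hcard]
      exact mem_zpowers _
  refine ⟨⁅x1, g1⁆, m, hm, le_antisymm ?_ ?_⟩
  · rw [_root_.commutator_def, Subgroup.commutator_le]
    intro g _ h _
    by_cases hg : g ∈ S
    · have h1 : x0 * g ∉ S := fun hmem => hx0 (by simpa using mul_mem hmem (inv_mem hg))
      have h2 : x0⁻¹ ∉ S := fun hmem => hx0 (by simpa using hmem)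
      have : g = x0⁻¹ * (x0 * g) := by group
      rw [this, hS.comm_mul_left hT]
      exact mul_mem (key _ h2 h) (key _ h1 h)
    · exact key g hg h
  · rw [zpowers_le, _root_.commutator_def]
    exact Subgroup.commutator_mem_commutator (mem_top _) (mem_top _)

theorem main (hS : Good S) (hT : S ≠ ⊤) (hp : p.Prime)
    (hG : ∀ N : OpenNormalSubgroup G, IsPGroup p (G ⧸ N.toSubgroup)) :
    ∃ n : ℕ, Nonempty ((commutator G).topologicalClosure ≃ₜ* Multiplicative (ZMod (p ^ n))) := by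
  obtain ⟨c, m, hm, hc⟩ := hS.exists_gen hT hp hG
  obtain ⟨n, -, hn⟩ := (Nat.dvd_prime_pow hp).1 (orderOf_dvd_of_pow_eq_one hm)
  refine ⟨n, ?_⟩
  rw [hc, closure_eq_of_pow (pow_pos hp.pos m) hm]
  have hfin : IsOfFinOrder c := isOfFinOrder_iff_pow_eq_one.2 ⟨_, pow_pos hp.pos m, hm⟩
  have : Finite (zpowers c) := (finite_zpowers.2 hfin).to_subtype
  have hcard : Nat.card (zpowers c) = p ^ n := by rw [Nat.card_zpowers, hn]
  have e := (zmodCyclicMulEquiv (G := zpowers c) inferInstance).symm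
  rw [hcard] at e
  exact ⟨{ e with
    continuous_toFun := continuous_of_discreteTopology
    continuous_invFun := continuous_of_discreteTopology }⟩

end Top

end Pool.Agent.Lib.MP_ca0bb9_al
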